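import Pool.Agent.helper51.VR.Spec

/-!
# Project vr (MP_24e2e7_nt), row vr:RNK
-/

set_option autoImplicit false

namespace Pool.Agent.VR

open Pool.Agent.RB NumberField IsDedekindDomain Module
open scoped nonZeroDivisors Real Classical IsMulCommutative

theorem RNK_tf {G : Type} (n : ℕ) (hn : n ≠ 0) (x y : MonoidAlgebra ℤ G) (h : n • x = n • y) :
    x = y := by
  apply MonoidAlgebra.ext
  ext g
  have h1 : (n • x).coeff g = (n • y).coeff g := by rw [h]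
  rw [MonoidAlgebra.coeff_smul_apply, MonoidAlgebra.coeff_smul_apply, nsmul_eq_mul,
    nsmul_eq_mul] at h1
  exact mul_left_cancel₀ (by exact_mod_cast hn) h1

theorem RNK_cs {G : Type} [Group G] (g m : G) (x : MonoidAlgebra ℤ G) :
    (MonoidAlgebra.single g 1 * x).coeff m = x.coeff (g⁻¹ * m) := by
  rw [MonoidAlgebra.coeff_single_mul_eq_mul_coeff (g⁻¹ * m), one_mul]
  intro m' _
  constructor
  · rintro rfl
    rw [inv_mul_cancel_left]
  · rintro rfl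
    rw [mul_inv_cancel_left]

section

variable {F H : Type} [Field F] [NumberField F] [Field H] [NumberField H] [Algebra F H]
  [IsAbelianGalois F H] [IsCMField H]

/-- the pairing of a homomorphism and a divisor -/
noncomputable def RNK_L {r : ℕ} (D : RData F H r) (u : Fin r → Hˣ)
    (φ : Hˣ → MonoidAlgebra ℤ (H ≃ₐ[F] H)) (E : Dv H) : ℤ :=
  (∑ j, cD (F := F) (D.w j) E * φ (u j)).coeff 1

theorem RNK_La {r : ℕ} (D : RData F H r) (u : Fin r → Hˣ)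
    (φ ψ : Hˣ → MonoidAlgebra ℤ (H ≃ₐ[F] H)) (E : Dv H) :
    RNK_L D u (φ + ψ) E = RNK_L D u φ E + RNK_L D u ψ E := by
  unfold RNK_L
  rw [← Finsupp.add_apply, ← MonoidAlgebra.coeff_add, ← Finset.sum_add_distrib]
  congr 2
  apply Finset.sum_congr rfl
  intro j _
  rw [Pi.add_apply, mul_add]

theorem RNK_Lb (hCDV : CDV_stmt) {r : ℕ} (D : RData F H r) (u : Fin r → Hˣ)
    (φ : Hˣ → MonoidAlgebra ℤ (H ≃ₐ[F] H)) (E E' : Dv H) :
    RNK_L D u φ (E + E') = RNK_L D u φ E + RNK_L D u φ E' := by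
  have h1 : ∑ j, cD (F := F) (D.w j) (E + E') * φ (u j) =
      ∑ j, cD (F := F) (D.w j) E * φ (u j) + ∑ j, cD (F := F) (D.w j) E' * φ (u j) := by
    rw [← Finset.sum_add_distrib]
    apply Finset.sum_congr rfl
    intro j _
    rw [(hCDV F H r D).2.1, add_mul]
  unfold RNK_L
  rw [h1, MonoidAlgebra.coeff_add, Finsupp.add_apply]

/-- the homomorphisms on `UU D` -/
def RNK_A {r : ℕ} (D : RData F H r) : AddSubgroup (Hˣ → MonoidAlgebra ℤ (H ≃ₐ[F] H)) where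
  carrier := {φ | IsGH (UU D) φ}
  zero_mem' := ⟨fun x _ y _ => by simp, fun σ x _ y _ _ => by simp⟩
  add_mem' := by
    intro a b ha hb
    refine ⟨fun x hx y hy => ?_, fun σ x hx y hy h => ?_⟩
    · rw [Pi.add_apply, Pi.add_apply, Pi.add_apply, ha.mul x hx y hy, hb.mul x hx y hy]
      abel
    · rw [Pi.add_apply, Pi.add_apply, ha.equiv σ x hx y hy h, hb.equiv σ x hx y hy h, mul_add]
  neg_mem' := by
    intro a ha
    refine ⟨fun x hx y hy => ?_, fun σ x hx y hy h => ?_⟩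
    · rw [Pi.neg_apply, Pi.neg_apply, Pi.neg_apply, ha.mul x hx y hy]
      abel
    · rw [Pi.neg_apply, Pi.neg_apply, ha.equiv σ x hx y hy h, mul_neg]

theorem RNK_key (hCDV : CDV_stmt) (hFCT : FCT_stmt) (hIDN : IDN_stmt) {r : ℕ} (D : RData F H r)
    (n : ℕ) (u : Fin r → Hˣ) (hu : DS D n u) (ψ : Hˣ → MonoidAlgebra ℤ (H ≃ₐ[F] H))
    (hψ : IsGH (UU D) ψ)
    (hd : ∀ E ∈ DV (D.c : H ≃+* H) {P : HOS H | P.under (𝓞 F) ∈ Set.range D.v},
      ∃ (d : ℕ) (z : ℤ), Odd d ∧ (d : ℤ) * RNK_L D u ψ E = 2 * n * z) :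
    ∃ (d : ℕ) (b : Fin r → MonoidAlgebra ℤ (H ≃ₐ[F] H)), Odd d ∧
      ∀ i, d • ψ (u i) = n • ((1 - MonoidAlgebra.single D.c 1) * b i) := by
  have hc : ∀ i, MonoidAlgebra.single D.c 1 * ψ (u i) = - ψ (u i) := fun i =>
    (hIDN F H r D n u hu ψ hψ (u i) (hu.2.1 i).1 (hu.2.1 i).2).1
  have h1 : ∀ (i : Fin r) (τ : H ≃ₐ[F] H), ∃ (d : ℕ) (z : ℤ), Odd d ∧
      (d : ℤ) * (ψ (u i)).coeff τ = n * z := by
    intro i τ
    obtain ⟨E, hE, hcd⟩ := (hCDV F H r D).2.2.2 i τ⁻¹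
    obtain ⟨d, z, hodd, hz⟩ := hd E hE
    refine ⟨d, z, hodd, ?_⟩
    have h2 : RNK_L D u ψ E = 2 * (ψ (u i)).coeff τ := by
      unfold RNK_L
      rw [Finset.sum_eq_single i]
      · rw [hcd i, if_pos rfl]
        have h3 : (1 - MonoidAlgebra.single D.c 1) * MonoidAlgebra.single τ⁻¹ (1 : ℤ) * ψ (u i) =
            MonoidAlgebra.single τ⁻¹ 1 * ((2 : ℤ) • ψ (u i)) := by
          have h4 : (2 : ℤ) • ψ (u i) = ψ (u i) - MonoidAlgebra.single D.c 1 * ψ (u i) := by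
            rw [hc i, two_zsmul]
            abel
          rw [h4]
          ring
        rw [h3, RNK_cs, MonoidAlgebra.coeff_smul_apply, inv_inv, mul_one, smul_eq_mul]
      · intro j _ hj
        rw [hcd j, if_neg hj, zero_mul]
      · intro h
        exact absurd (Finset.mem_univ _) h
    rw [h2] at hz
    linarith
  choose d z hodd hz using h1
  have hdiv : ∀ i τ, d i τ ∣ ∏ i, ∏ τ, d i τ := fun i τ =>
    (Finset.dvd_prod_of_mem (fun τ => d i τ) (Finset.mem_univ τ)).trans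
      (Finset.dvd_prod_of_mem (fun i => ∏ τ, d i τ) (Finset.mem_univ i))
  have hoddp : Odd (∏ i, ∏ τ, d i τ) := by
    refine Finset.prod_induction _ Odd (fun a b ha hb => ha.mul hb) odd_one ?_
    intro i _
    exact Finset.prod_induction _ Odd (fun a b ha hb => ha.mul hb) odd_one (fun τ _ => hodd i τ)
  set d₀ : ℕ := ∏ i, ∏ τ, d i τ with hd₀
  choose e he using hdiv
  have hzz : ∀ i, ∃ y : MonoidAlgebra ℤ (H ≃ₐ[F] H), d₀ • ψ (u i) = n • y := by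
    intro i
    refine ⟨MonoidAlgebra.ofCoeff (Finsupp.equivFunOnFinite.symm (fun τ => (e i τ : ℤ) * z i τ)),
      ?_⟩
    apply MonoidAlgebra.ext
    ext τ
    rw [MonoidAlgebra.coeff_smul_apply, MonoidAlgebra.coeff_smul_apply,
      MonoidAlgebra.coeff_ofCoeff, Finsupp.equivFunOnFinite_symm_apply_apply, nsmul_eq_mul,
      nsmul_eq_mul]
    have h5 : (d₀ : ℤ) = (d i τ : ℤ) * e i τ := by exact_mod_cast he i τ
    rw [h5]
    have h6 := hz i τ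
    calc (d i τ : ℤ) * e i τ * (ψ (u i)).coeff τ = e i τ * ((d i τ : ℤ) * (ψ (u i)).coeff τ) := by
          ring
      _ = n * (e i τ * z i τ) := by rw [h6]; ring
  choose y hy using hzz
  have hyb : ∀ i, ∃ b : MonoidAlgebra ℤ (H ≃ₐ[F] H),
      y i = (1 - MonoidAlgebra.single D.c 1) * b := by
    intro i
    apply (hFCT F H r D).2.2.2.2.2.2.1 (y i)
    apply RNK_tf n hu.1
    rw [← mul_smul_comm, ← hy i, mul_smul_comm, hc i, smul_neg, hy i, smul_neg]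
  choose b hb using hyb
  refine ⟨d₀, b, hoddp, fun i => ?_⟩
  rw [hy i, hb i]

theorem RNK_fin (hIDN : IDN_stmt) (hPWR : PWR_stmt) {r : ℕ} (D : RData F H r)
    (n : ℕ) (u : Fin r → Hˣ) (hu : DS D n u) (ψ : Hˣ → MonoidAlgebra ℤ (H ≃ₐ[F] H))
    (hψ : IsGH (UU D) ψ) (d : ℕ) (b : Fin r → MonoidAlgebra ℤ (H ≃ₐ[F] H))
    (hb : ∀ i, d • ψ (u i) = n • ((1 - MonoidAlgebra.single D.c 1) * b i)) (x : Hˣ)
    (hx : x ∈ UU D) (hx1 : (x : H) * D.c (x : H) = 1) :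
    d • ψ x = ∑ i, b i * ordZ F (D.w i) (x : H) := by
  have hn : 2 * n ≠ 0 := mul_ne_zero two_ne_zero hu.1
  apply RNK_tf (2 * n) hn
  have h1 := (hIDN F H r D n u hu ψ hψ x hx hx1).2
  have h2 : ∀ j, MonoidAlgebra.single D.c 1 * ordZ F (D.w j) (x : H) =
      - ordZ F (D.w j) (x : H) := fun j =>
    (hIDN F H r D n u hu (fun x => ordZ F (D.w j) (x : H))
      ((hPWR F H (D.T : Set (HOS F)) (Set.range D.v)).2.2.2 (D.w j)) x hx hx1).1
  rw [smul_comm, h1, Finset.smul_sum, Finset.smul_sum]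
  apply Finset.sum_congr rfl
  intro j _
  rw [← mul_smul_comm, hb j, mul_smul_comm, mul_smul, smul_comm 2 n]
  congr 1
  have h3 : 2 • (b j * ordZ F (D.w j) (x : H)) =
      b j * (ordZ F (D.w j) (x : H) - MonoidAlgebra.single D.c 1 * ordZ F (D.w j) (x : H)) := by
    rw [h2 j, two_smul, sub_neg_eq_add, mul_add]
  rw [h3]
  ring

end

theorem RNK (hLAM : LAM_stmt) (hDSY : DSY_stmt) (hIDN : IDN_stmt) (hPWR : PWR_stmt)
    (hFCT : FCT_stmt) (hCDV : CDV_stmt) : RNK_stmt := by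
  intro F H _ _ _ _ _ _ _ r N D hM
  obtain ⟨n, u, hu⟩ := hDSY F H r D
  obtain ⟨g, hg, hE⟩ := hM
  let lam : RNK_A D →+ (Fin N → ℤ) := AddMonoidHom.mk'
    (fun φ k => RNK_L D u (φ : Hˣ → MonoidAlgebra ℤ (H ≃ₐ[F] H)) (g k)) (by
      intro a b
      ext k
      exact RNK_La D u _ _ (g k))
  obtain ⟨f, hf⟩ := hLAM (RNK_A D) N lam
  refine ⟨fun k => (f k : Hˣ → MonoidAlgebra ℤ (H ≃ₐ[F] H)), fun k => (f k).2, ?_⟩
  intro φ hφ
  obtain ⟨a, ha⟩ := hf ⟨φ, hφ⟩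
  let ψ : RNK_A D := ⟨φ, hφ⟩ - ∑ k, a k • f k
  have hψ0 : lam ψ = 0 := by
    rw [map_sub, map_sum, ha, sub_eq_zero]
    apply Finset.sum_congr rfl
    intro k _
    rw [map_zsmul]
  have hψx : ∀ x : Hˣ, φ x = (ψ : Hˣ → MonoidAlgebra ℤ (H ≃ₐ[F] H)) x +
      ∑ k, a k • (f k : Hˣ → MonoidAlgebra ℤ (H ≃ₐ[F] H)) x := by
    intro x
    have h1 : (ψ : Hˣ → MonoidAlgebra ℤ (H ≃ₐ[F] H)) = φ - ∑ k, a k •
        (f k : Hˣ → MonoidAlgebra ℤ (H ≃ₐ[F] H)) := by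
      change ((⟨φ, hφ⟩ - ∑ k, a k • f k : RNK_A D) : Hˣ → MonoidAlgebra ℤ (H ≃ₐ[F] H)) = _
      rw [AddSubgroup.coe_sub, AddSubgroup.val_finsetSum]
      rfl
    rw [h1, Pi.sub_apply, Finset.sum_apply]
    simp only [Pi.smul_apply]
    abel
  have hψk : ∀ k, RNK_L D u (ψ : Hˣ → MonoidAlgebra ℤ (H ≃ₐ[F] H)) (g k) = 0 := fun k =>
    congrFun hψ0 k
  let Lam : Dv H →+ ℤ := AddMonoidHom.mk'
    (fun E => RNK_L D u (ψ : Hˣ → MonoidAlgebra ℤ (H ≃ₐ[F] H)) E) (RNK_Lb hCDV D u _)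
  have hLam : ∀ E, Lam E = RNK_L D u (ψ : Hˣ → MonoidAlgebra ℤ (H ≃ₐ[F] H)) E := fun _ => rfl
  have hdM : ∀ E ∈ dM (D.c : H ≃+* H) {P : HOS H | P.under (𝓞 F) ∈ Set.range D.v}
      {P : HOS H | P.under (𝓞 F) ∈ D.T}, ∃ z : ℤ, Lam E = 2 * n * z := by
    rintro E ⟨x, hx, hxE⟩
    have hxU : x ∈ UU D := ((hFCT F H r D).2.2.2.2.1 x).2 ⟨hx.2.2, hx.2.1⟩
    refine ⟨((ψ : Hˣ → MonoidAlgebra ℤ (H ≃ₐ[F] H)) x).coeff 1, ?_⟩
    rw [hLam]
    unfold RNK_L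
    have h1 : ∀ j, cD (F := F) (D.w j) E = ordZ F (D.w j) (x : H) := fun j =>
      (hCDV F H r D).1 (D.w j) E (x : H) hxE
    have h2 : ∑ j, cD (F := F) (D.w j) E * (ψ : Hˣ → MonoidAlgebra ℤ (H ≃ₐ[F] H)) (u j) =
        (2 * n) • (ψ : Hˣ → MonoidAlgebra ℤ (H ≃ₐ[F] H)) x := by
      rw [(hIDN F H r D n u hu _ ψ.2 x hxU hx.1).2]
      apply Finset.sum_congr rfl
      intro j _
      rw [h1 j]
    rw [h2, MonoidAlgebra.coeff_smul_apply, nsmul_eq_mul]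
    push_cast
    ring
  have hd : ∀ E ∈ DV (D.c : H ≃+* H) {P : HOS H | P.under (𝓞 F) ∈ Set.range D.v},
      ∃ (d : ℕ) (z : ℤ), Odd d ∧
        (d : ℤ) * RNK_L D u (ψ : Hˣ → MonoidAlgebra ℤ (H ≃ₐ[F] H)) E = 2 * n * z := by
    intro E hEE
    obtain ⟨d, a', hodd, hmem⟩ := hE E hEE
    obtain ⟨z, hz⟩ := hdM _ hmem
    refine ⟨d, z, hodd, ?_⟩
    rw [← hz, map_sub, map_nsmul, map_sum, ← hLam, nsmul_eq_mul]
    have h3 : ∑ k, Lam (a' k • g k) = 0 := by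
      apply Finset.sum_eq_zero
      intro k _
      rw [map_zsmul, hLam, hψk k, smul_zero]
    rw [h3, sub_zero]
  obtain ⟨d, b, hodd, hb⟩ := RNK_key hCDV hFCT hIDN D n u hu _ ψ.2 hd
  refine ⟨d, fun k => (((d : ℤ) * a k : ℤ) : MonoidAlgebra ℤ (H ≃ₐ[F] H)), b, hodd, ?_⟩
  intro x hx hx1
  rw [hψx x, smul_add, RNK_fin hIDN hPWR D n u hu _ ψ.2 d b hb x hx hx1, add_comm,
    Finset.smul_sum]
  congr 1
  apply Finset.sum_congr rfl
  intro k _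
  rw [← zsmul_eq_mul, mul_smul, natCast_zsmul]

end Pool.Agent.VR
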